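import Mathlib

set_option autoImplicit false

namespace Pool.Agent.Results.MP_337ab5_co.Winners

open Equiv Equiv.Perm

/-- Filling one word. Positions and values are `0, …, N - 1`; `mv k` says that A fills position
`k`; `f` lists the values chosen so far and `r` positions remain. `G N mv P r f` says that A can
force the finished word to be a permutation with property `P` (backward induction). -/
def G (N : ℕ) (mv : ℕ → Prop) (P : Perm (Fin N) → Prop) : ℕ → (ℕ → ℕ) → Prop
  | 0, f => ∃ σ : Perm (Fin N), (∀ i, (σ i : ℕ) = f i) ∧ P σ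
  | r + 1, f =>
    (mv (N - (r + 1)) → ∃ v < N, (∀ j < N - (r + 1), f j ≠ v) ∧
      G N mv P r (Function.update f (N - (r + 1)) v)) ∧
    (¬ mv (N - (r + 1)) → ∀ v < N, (∀ j < N - (r + 1), f j ≠ v) →
      G N mv P r (Function.update f (N - (r + 1)) v))

/-- A has a winning strategy when A fills the entries `i = k + 1` with `i` odd in the first word
and the entries with `mv k` in the second word. -/
def AWins (N : ℕ) (mv : ℕ → Prop) : Prop :=
  G N (fun k => Odd (k + 1)) (fun σ => G N mv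
    (fun τ => Subgroup.closure {σ, τ} = ⊤) N fun _ => 0) N fun _ => 0

/-- The same game on completions of the word. -/
def H (N : ℕ) (mv : ℕ → Prop) (P : Perm (Fin N) → Prop) : ℕ → Perm (Fin N) → Prop
  | 0, σ => P σ
  | r + 1, σ => ∀ k : Fin N, (k : ℕ) = N - (r + 1) →
    (mv k → ∃ j, k ≤ j ∧ H N mv P r (σ * swap k j)) ∧
    (¬ mv k → ∀ j, k ≤ j → H N mv P r (σ * swap k j))

lemma GH {N : ℕ} (mv : ℕ → Prop) (P : Perm (Fin N) → Prop) : ∀ r ≤ N, ∀ (f : ℕ → ℕ)
    (σ : Perm (Fin N)), (∀ i : Fin N, (i : ℕ) < N - r → (σ i : ℕ) = f i) →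
    (G N mv P r f ↔ H N mv P r σ) := by
  intro r
  induction r with
  | zero =>
    intro _ f σ h
    refine ⟨fun ⟨σ', h1, h2⟩ => ?_, fun h2 => ⟨σ, fun i => h i (by simp), h2⟩⟩
    obtain rfl : σ' = σ := Equiv.ext fun i => Fin.ext ((h1 i).trans (h i (by simp)).symm)
    exact h2
  | succ r ih =>
    intro hr f σ h
    let k : Fin N := ⟨N - (r + 1), by omega⟩
    have up : ∀ j, k ≤ j → (G N mv P r (Function.update f (N - (r + 1)) (σ j)) ↔
        H N mv P r (σ * swap k j)) := fun j hj => ih (by omega) _ _ fun i hi => by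
      by_cases e : i = k
      · simp [e, k]
      · have h1 : (i : ℕ) ≠ N - (r + 1) := fun h => e (Fin.ext h)
        have h2 : i ≠ j := fun h => by
          have : N - (r + 1) ≤ (j : ℕ) := hj
          rw [← h] at this; omega
        rw [Function.update_of_ne h1, Perm.mul_apply, swap_apply_of_ne_of_ne e h2, h i (by omega)]
    have a1 : ∀ j, k ≤ j → ∀ i < N - (r + 1), f i ≠ σ j := fun j hj i hi e => by
      have h1 := h ⟨i, by omega⟩ hi
      have h2 : (⟨i, by omega⟩ : Fin N) = j := σ.injective (Fin.ext (h1.trans e))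
      have : N - (r + 1) ≤ (j : ℕ) := hj
      rw [← h2] at this
      exact absurd hi (not_lt.2 this)
    have a2 : ∀ v < N, (∀ i < N - (r + 1), f i ≠ v) → ∃ j, k ≤ j ∧ v = σ j := fun v hv hf => by
      refine ⟨σ.symm ⟨v, hv⟩, not_lt.1 fun hlt => hf _ hlt ?_, by simp⟩
      rw [← h _ hlt]; simp
    constructor
    · rintro ⟨h1, h2⟩ k' hk
      obtain rfl : k' = k := Fin.ext hk
      refine ⟨fun hm => ?_, fun hm j hj => (up j hj).1 (h2 hm _ (σ j).2 (a1 j hj))⟩
      obtain ⟨v, hv, h3, h4⟩ := h1 hm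
      obtain ⟨j, hj, rfl⟩ := a2 v hv h3
      exact ⟨j, hj, (up j hj).1 h4⟩
    · intro h0
      obtain ⟨h1, h2⟩ := h0 k rfl
      refine ⟨fun hm => ?_, fun hm v hv h3 => ?_⟩
      · obtain ⟨j, hj, h3⟩ := h1 hm
        exact ⟨_, (σ j).2, a1 j hj, (up j hj).2 h3⟩
      · obtain ⟨j, hj, rfl⟩ := a2 v hv h3
        exact (up j hj).2 (h2 hm j hj)

lemma AH (N : ℕ) (mv : ℕ → Prop) : AWins N mv ↔ H N (fun k => Odd (k + 1)) (fun σ => H N mv
    (fun τ => Subgroup.closure {σ, τ} = ⊤) N 1) N 1 := by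
  rw [AWins, GH _ _ N le_rfl _ 1 fun i hi => by omega]
  simp only [fun σ : Perm (Fin N) => GH mv (fun τ => Subgroup.closure {σ, τ} = ⊤) N le_rfl
    (fun _ => 0) 1 fun i hi => by omega]

lemma Bstrat {N : ℕ} {mv : ℕ → Prop} {P : Perm (Fin N) → Prop} (I : ℕ → Perm (Fin N) → Prop)
    (h0 : I 0 1) (hA : ∀ (k : Fin N) σ, mv k → I k σ → ∀ j, k ≤ j → I (k + 1) (σ * swap k j))
    (hB : ∀ (k : Fin N) σ, ¬ mv k → I k σ → ∃ j, k ≤ j ∧ I (k + 1) (σ * swap k j))
    (h : H N mv P N 1) : ∃ σ, I N σ ∧ P σ := by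
  have : ∀ r ≤ N, ∀ σ, I (N - r) σ → H N mv P r σ → ∃ σ, I N σ ∧ P σ := by
    intro r
    induction r with
    | zero => exact fun _ σ h1 h2 => ⟨σ, h1, h2⟩
    | succ r ih =>
      intro hr σ h1 h2
      let k : Fin N := ⟨N - (r + 1), by omega⟩
      have e : N - r = k + 1 := by simp only [k]; omega
      obtain ⟨h3, h4⟩ := h2 k rfl
      by_cases hm : mv k
      · obtain ⟨j, hj, h5⟩ := h3 hm
        exact ih (by omega) _ (e ▸ hA k σ hm h1 j hj) h5
      · obtain ⟨j, hj, h5⟩ := hB k σ hm h1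
        exact ih (by omega) _ (e ▸ h5) (h4 hm j hj)
  exact this N le_rfl 1 (by simpa using h0) h

lemma not_even {N : ℕ} (hN : 2 ≤ N) {σ τ : Perm (Fin N)} (h1 : sign σ = 1) (h2 : sign τ = 1) :
    Subgroup.closure {σ, τ} ≠ ⊤ := fun h => by
  have : Subgroup.closure {σ, τ} ≤ alternatingGroup (Fin N) := by
    rw [Subgroup.closure_le]
    rintro g (rfl | rfl)
    exacts [mem_alternatingGroup.2 h1, mem_alternatingGroup.2 h2]
  have := mem_alternatingGroup.1 (this (h ▸ Subgroup.mem_top (swap (⟨0, by omega⟩ : Fin N) ⟨1, by omega⟩)))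
  rw [sign_swap (by simp)] at this
  exact absurd this (by decide)

lemma parity {N : ℕ} (hN : 2 ≤ N) (ho : Odd N) {P : Perm (Fin N) → Prop}
    (h : H N (fun k => Odd (k + 1)) P N 1) : ∃ σ, sign σ = 1 ∧ P σ := by
  obtain ⟨m, hm⟩ := ho
  obtain ⟨σ, h1, h2⟩ := Bstrat (fun k σ => N - 1 ≤ k → sign σ = 1) (fun _ => by simp)
    (fun k σ ⟨c, hc⟩ hi j hj hk => by
      have hj' : (k : ℕ) ≤ j := hj
      obtain rfl : j = k := Fin.ext (by omega)
      simpa using hi (by omega))
    (fun k σ hk hi => by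
      rw [Nat.not_odd_iff_even] at hk
      obtain ⟨c, hc⟩ := hk
      rcases Int.units_eq_one_or (sign σ) with hs | hs
      · exact ⟨k, le_rfl, fun _ => by simpa using hs⟩
      · refine ⟨⟨N - 1, by omega⟩, show (k : ℕ) ≤ N - 1 by omega, fun _ => ?_⟩
        rw [map_mul, hs, sign_swap fun h => by have := congrArg Fin.val h; simp at this; omega]
        simp) h
  exact ⟨σ, h1 (by omega), h2⟩

def pr (a : ℕ) : ℕ := if a % 2 = 0 then a + 1 else a - 1

lemma pairing {N : ℕ} (he : Even N) {mv : ℕ → Prop} (hmv : ∀ k, mv k ↔ Odd (k + 1))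
    {P : Perm (Fin N) → Prop} (h : H N mv P N 1) :
    ∃ σ, (∀ i j : Fin N, (j : ℕ) = pr i → (σ j : ℕ) = pr (σ i)) ∧ P σ := by
  obtain ⟨m, hm⟩ := he
  obtain ⟨σ, h1, h2⟩ := Bstrat (fun k σ => ∀ i j : Fin N, (i : ℕ) < k → (j : ℕ) < k →
      (j : ℕ) = pr i → (σ j : ℕ) = pr (σ i)) (fun i j h => by omega)
    (fun k σ hk hi j hj a b ha hb hab => by
      obtain ⟨c, hc⟩ := (hmv k).1 hk
      have hj' : (k : ℕ) ≤ j := hj
      have h1 : (a : ℕ) < k ∧ (b : ℕ) < k := by unfold pr at hab; split_ifs at hab <;> omega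
      rw [Perm.mul_apply, Perm.mul_apply, swap_apply_of_ne_of_ne (by omega) (by omega),
        swap_apply_of_ne_of_ne (by omega) (by omega)]
      exact hi a b h1.1 h1.2 hab)
    (fun k σ hk hi => by
      rw [hmv, Nat.not_odd_iff_even] at hk
      obtain ⟨c, hc⟩ := hk
      let p : Fin N := ⟨k - 1, by omega⟩
      have hp : (p : ℕ) = k - 1 := rfl
      have hv : pr (σ p) < N := by have := (σ p).2; unfold pr; split_ifs <;> omega
      let j := σ.symm ⟨pr (σ p), hv⟩
      have hj : (σ j : ℕ) = pr (σ p) := by simp [j]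
      have hkj : (k : ℕ) ≤ j := by
        by_contra hlt
        by_cases e : j = p
        · rw [e] at hj; unfold pr at hj; split_ifs at hj <;> omega
        · have h1 : (j : ℕ) ≠ p := fun h => e (Fin.ext h)
          have h2 : pr j < k - 1 := by unfold pr; split_ifs <;> omega
          have h3 := hi j ⟨pr j, by omega⟩ (by omega) (by simp only; omega) rfl
          have h4 : (⟨pr j, by omega⟩ : Fin N) = p := σ.injective (Fin.ext (by
            rw [h3, hj]; unfold pr; split_ifs <;> omega))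
          have := congrArg Fin.val h4
          simp only at this
          omega
      refine ⟨j, hkj, fun a b ha hb hab => ?_⟩
      have low : ∀ x : Fin N, (x : ℕ) < k → (σ * swap k j) x = σ x := fun x hx => by
        rw [Perm.mul_apply, swap_apply_of_ne_of_ne (by omega) (by omega)]
      have top : (σ * swap k j) k = σ j := by simp
      rcases (by omega : (a : ℕ) < k ∨ (a : ℕ) = k) with h1 | h1 <;>
        rcases (by omega : (b : ℕ) < k ∨ (b : ℕ) = k) with h2 | h2
      · rw [low a h1, low b h2]; exact hi a b h1 h2 hab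
      · obtain rfl : a = p := Fin.ext (by unfold pr at hab; split_ifs at hab <;> omega)
        rw [low _ h1, Fin.ext h2, top, hj]
      · obtain rfl : b = p := Fin.ext (by unfold pr at hab; split_ifs at hab <;> omega)
        rw [low _ h2, Fin.ext h1, top, hj]; unfold pr; split_ifs <;> omega
      · unfold pr at hab; split_ifs at hab <;> omega) h
  exact ⟨σ, fun i j => h1 i j i.2 j.2, h2⟩

lemma even_case {N : ℕ} (hN : 4 ≤ N) (he : Even N) {mv : ℕ → Prop}
    (hmv : ∀ k, mv k ↔ Odd (k + 1)) : ¬ AWins N mv := fun h => by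
  obtain ⟨σ, h1, h⟩ := pairing he (fun _ => Iff.rfl) ((AH _ _).1 h)
  obtain ⟨τ, h2, h⟩ := pairing he hmv h
  obtain ⟨m, hm⟩ := he
  have : ∀ g ∈ Subgroup.closure {σ, τ}, ∀ i j : Fin N, (j : ℕ) = pr i → (g j : ℕ) = pr (g i) := by
    intro g hg
    induction hg using Subgroup.closure_induction with
    | mem x hx => rcases hx with rfl | rfl <;> assumption
    | one => exact fun i j h => h
    | mul x y _ _ hx hy => exact fun i j h => hx _ _ (hy i j h)
    | inv x _ hx =>
      intro i j hij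
      have hv : pr (x⁻¹ i : Fin N) < N := by have := (x⁻¹ i).2; unfold pr; split_ifs <;> omega
      have := hx (x⁻¹ i) ⟨_, hv⟩ rfl
      rw [show x (x⁻¹ i) = i by simp, ← hij] at this
      rw [← Fin.ext this]; simp
  have := this (swap ⟨0, by omega⟩ ⟨2, by omega⟩) (h ▸ Subgroup.mem_top _) ⟨0, by omega⟩
    ⟨1, by omega⟩ rfl
  rw [swap_apply_left, swap_apply_of_ne_of_ne (by simp) (by simp)] at this
  simp [pr] at this

lemma keep {N m : ℕ} (hm : N = 2 * m + 1) {mv : ℕ → Prop} (e : ℕ) (he : e ≤ 1)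
    (hmv : ∀ k, mv k ↔ Odd (k + e)) {P : Perm (Fin N) → Prop} (h : H N mv P N 1) :
    ∃ L : List (Perm (Fin N)), (∀ g ∈ L, IsSwap g) ∧ L.length ≤ m ∧ P L.prod := by
  obtain ⟨σ, ⟨L, h1, h2, h3, rfl⟩, h4⟩ := Bstrat (fun k σ => ∃ L : List (Perm (Fin N)),
      (∀ g ∈ L, IsSwap g) ∧ 2 * L.length ≤ k + e ∧ L.length ≤ m ∧ σ = L.prod)
    ⟨[], by simp⟩
    (fun k σ hk ⟨L, h1, h2, h3, h4⟩ j hj => by
      obtain ⟨c, hc⟩ := (hmv k).1 hk
      by_cases h : k = j
      · exact ⟨L, h1, by omega, h3, by simp [← h, h4]; rfl⟩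
      · have : (k : ℕ) < j := lt_of_le_of_ne hj fun h' => h (Fin.ext h')
        have := j.2
        refine ⟨L ++ [swap k j], fun g hg => ?_, by simp; omega, by simp; omega, by simp [h4]⟩
        rcases List.mem_append.1 hg with hg | hg
        · exact h1 g hg
        · exact ⟨k, j, h, by simpa using hg⟩)
    (fun k σ _ ⟨L, h1, h2, h3, h4⟩ => ⟨k, le_rfl, L, h1, by omega, h3, by simp [h4]; rfl⟩) h
  exact ⟨L, h1, h3, h4⟩

lemma classes {N : ℕ} (L : List (Perm (Fin N))) (h : ∀ g ∈ L, IsSwap g) : ∃ c : Fin N → Fin N,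
    (∀ g ∈ L, ∀ x, c (g x) = c x) ∧ N ≤ (Finset.univ.image c).card + L.length := by
  induction L with
  | nil => exact ⟨id, by simp, by simp⟩
  | cons g L ih =>
    obtain ⟨c, h1, h2⟩ := ih fun g hg => h g (List.mem_cons_of_mem _ hg)
    obtain ⟨a, b, -, rfl⟩ := h g List.mem_cons_self
    refine ⟨fun x => if c x = c b then c a else c x, fun g hg x => ?_, ?_⟩
    · rcases List.mem_cons.1 hg with rfl | hg
      · simp only [swap_apply_def]
        split_ifs <;> simp_all
      · simp only [h1 g hg]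
    · have : (Finset.univ.image c).erase (c b) ⊆
          Finset.univ.image fun x => if c x = c b then c a else c x := fun y hy => by
        obtain ⟨h3, h4⟩ := Finset.mem_erase.1 hy
        obtain ⟨x, -, rfl⟩ := Finset.mem_image.1 h4
        exact Finset.mem_image.2 ⟨x, Finset.mem_univ _, if_neg h3⟩
      have := Finset.card_le_card this
      have := Finset.pred_card_le_card_erase (s := Finset.univ.image c) (a := c b)
      simp only [List.length_cons]
      omega

lemma one_mod_four {N : ℕ} (hN : 2 ≤ N) (h4 : N % 4 = 1) :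
    ¬ AWins N fun k => Odd (N + (k + 1)) := fun h => by
  have hm : N = 2 * (N / 2) + 1 := by omega
  obtain ⟨L, l1, l2, h⟩ := keep hm 1 le_rfl (fun _ => Iff.rfl) ((AH _ _).1 h)
  obtain ⟨M, m1, m2, h⟩ := keep hm 0 zero_le_one (fun k => by simp only [Nat.odd_iff]; omega) h
  by_cases hc : L.length = N / 2 ∧ M.length = N / 2
  · have : Even (N / 2) := by rw [Nat.even_iff]; omega
    exact not_even hN (by rw [sign_prod_list_swap l1, hc.1, this.neg_one_pow])
      (by rw [sign_prod_list_swap m1, hc.2, this.neg_one_pow]) h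
  obtain ⟨c, c1, c2⟩ := classes (L ++ M) fun g hg => (List.mem_append.1 hg).elim (l1 g) (m1 g)
  let K : Subgroup (Perm (Fin N)) :=
    { carrier := {g | ∀ x, c (g x) = c x}
      mul_mem' := fun ha hb x => (ha _).trans (hb x)
      one_mem' := fun _ => rfl
      inv_mem' := fun {g} hg x => by rw [← hg (g⁻¹ x)]; simp }
  have : Subgroup.closure {L.prod, M.prod} ≤ K := by
    rw [Subgroup.closure_le]
    rintro g (rfl | rfl)
    · exact K.list_prod_mem fun g hg => c1 g (List.mem_append_left _ hg)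
    · exact K.list_prod_mem fun g hg => c1 g (List.mem_append_right _ hg)
  have h5 : (Finset.univ.image c).card ≤ 1 := Finset.card_le_one.2 fun a ha b hb => by
    obtain ⟨x, -, rfl⟩ := Finset.mem_image.1 ha
    obtain ⟨y, -, rfl⟩ := Finset.mem_image.1 hb
    have := this (h ▸ Subgroup.mem_top (swap x y)) y
    rwa [swap_apply_right] at this
  rw [List.length_append] at c2
  omega

lemma top_of {N : ℕ} {σ τ : Perm (Fin N)}
    (h : ∀ g, g ∈ [1, σ, τ, σ * τ, τ * σ, σ * σ, τ * τ, σ * τ * σ, τ * σ * τ]) :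
    Subgroup.closure {σ, τ} = ⊤ := by
  have h1 : σ ∈ Subgroup.closure {σ, τ} := Subgroup.subset_closure (by simp)
  have h2 : τ ∈ Subgroup.closure {σ, τ} := Subgroup.subset_closure (by simp)
  refine top_unique fun g _ => ?_
  have := h g
  simp only [List.mem_cons, List.not_mem_nil, or_false] at this
  rcases this with rfl | rfl | rfl | rfl | rfl | rfl | rfl | rfl | rfl <;>
    simp only [mul_mem, one_mem, h1, h2]

lemma H.mono {N : ℕ} {mv : ℕ → Prop} {P Q : Perm (Fin N) → Prop} (h : ∀ σ, P σ → Q σ) :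
    ∀ r σ, H N mv P r σ → H N mv Q r σ
  | 0, σ => h σ
  | r + 1, _ => fun h' k hk => ⟨fun hm => ((h' k hk).1 hm).imp fun _ => And.imp_right (H.mono h r _),
      fun hm j hj => H.mono h r _ ((h' k hk).2 hm j hj)⟩

instance H.dec {N : ℕ} {mv : ℕ → Prop} {P : Perm (Fin N) → Prop} [DecidablePred mv]
    [DecidablePred P] : ∀ r σ, Decidable (H N mv P r σ)
  | 0, σ => inferInstanceAs (Decidable (P σ))
  | r + 1, σ => by
    haveI := H.dec (mv := mv) (P := P) r
    unfold H
    infer_instance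

lemma small {N : ℕ} {mv : ℕ → Prop} (h : H N (fun k => Odd (k + 1)) (fun σ => H N mv
    (fun τ => ∀ g, g ∈ [1, σ, τ, σ * τ, τ * σ, σ * σ, τ * τ, σ * τ * σ, τ * σ * τ]) N 1) N 1) :
    AWins N mv :=
  (AH _ _).2 (H.mono (fun _ => H.mono (fun _ => top_of) _ _) _ _ h)

theorem result (N : ℕ) (hN : 1 ≤ N) :
    (AWins N (fun k => Odd (k + 1)) ↔ N ≤ 2) ∧
    (N % 4 ≠ 3 ∨ N = 3 → (AWins N (fun k => Odd (N + (k + 1))) ↔ N ≤ 3)) := by
  refine ⟨⟨fun h => ?_, fun h => ?_⟩, fun h4 => ⟨fun h => ?_, fun h => ?_⟩⟩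
  · by_contra hc
    rcases Nat.even_or_odd N with he | ho
    · exact even_case (by obtain ⟨m, rfl⟩ := he; omega) he (fun _ => Iff.rfl) h
    · obtain ⟨σ, h1, h⟩ := parity (by omega) ho ((AH _ _).1 h)
      obtain ⟨τ, h2, h⟩ := parity (by omega) ho h
      exact not_even (by omega) h1 h2 h
  · interval_cases N <;> exact small (by decide +kernel)
  · by_contra hc
    rcases Nat.even_or_odd N with he | ho
    · exact even_case (by omega) he (fun k => by
        rw [Nat.even_iff] at he; simp only [Nat.odd_iff]; omega) h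
    · rw [Nat.odd_iff] at ho
      exact one_mod_four (by omega) (by omega) h
  · interval_cases N <;> exact small (by decide +kernel)

end Pool.Agent.Results.MP_337ab5_co.Winners
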